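import Pool.Agent.H715.TW.Stm
import Pool.Graph.R_seed8.H703R2.Desc.Trans

/-!
Project TW (helper715): tasks HALVEH and TRANSH (integer inequalities), by helper551.
-/

set_option autoImplicit false

namespace Pool.Agent.H551.TW

open Pool.Agent.H703R2.Desc (bezout3 not_both)

theorem case1X {X Y T V : ℤ} (hX : 0 < X) (hY : 0 < Y) (hT : 0 < T)
    (h1 : X ^ 2 - 2048 * Y ^ 2 ≤ T) (h2 : 4 * X * Y * V ≤ T ^ 2)
    (hV : V = X ^ 2 + 105 * X * Y + 2048 * Y ^ 2) : X ^ 2 ≤ 8 * T := by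
  by_contra h
  push Not at h
  have a1 : 7 * X ^ 2 < 16384 * Y ^ 2 := by linarith
  have a2 : 13 * X < 640 * Y := by
    by_contra h'
    push Not at h'
    have := pow_le_pow_left₀ (by positivity) h' 2
    have hX2 : 0 < X ^ 2 := by positivity
    nlinarith
  have a3 : 4 * X * Y * X ^ 2 ≤ T ^ 2 := by
    have : 0 ≤ 4 * X * Y * (105 * X * Y + 2048 * Y ^ 2) := by positivity
    rw [hV] at h2
    linarith
  have a4 : 4 * X ^ 3 * (13 * X) < 4 * X ^ 3 * (640 * Y) :=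
    mul_lt_mul_of_pos_left a2 (by positivity)
  have a5 : (8 * T) ^ 2 < (X ^ 2) ^ 2 := pow_lt_pow_left₀ h (by positivity) two_ne_zero
  have hT2 : 0 < T ^ 2 := by positivity
  have e1 : 4 * X ^ 3 * (13 * X) = 52 * (X ^ 2) ^ 2 := by ring
  have e2 : 4 * X ^ 3 * (640 * Y) = 640 * (4 * X * Y * X ^ 2) := by ring
  rw [e1, e2] at a4
  linarith

theorem case1Y {X Y T V : ℤ} (hX : 0 < X) (hY : 0 < Y) (hT : 0 < T)
    (h1 : 2048 * Y ^ 2 - X ^ 2 ≤ T) (h2 : 4 * X * Y * V ≤ T ^ 2)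
    (hV : V = X ^ 2 + 105 * X * Y + 2048 * Y ^ 2) : Y ^ 2 ≤ 8 * T := by
  by_contra h
  push Not at h
  have hY2 : 0 < Y ^ 2 := by positivity
  have a2 : Y < X := by
    by_contra h'
    push Not at h'
    have := pow_le_pow_left₀ hX.le h' 2
    linarith
  have a3 : 4 * X * Y * Y ^ 2 ≤ T ^ 2 := by
    have : 0 ≤ 4 * X * Y * (X ^ 2 + 105 * X * Y + 2047 * Y ^ 2) := by positivity
    rw [hV] at h2
    linarith
  have a4 : 4 * Y ^ 3 * Y < 4 * Y ^ 3 * X := mul_lt_mul_of_pos_left a2 (by positivity)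
  have a5 : (8 * T) ^ 2 < (Y ^ 2) ^ 2 := pow_lt_pow_left₀ h (by positivity) two_ne_zero
  have hT2 : 0 < T ^ 2 := by positivity
  have e1 : 4 * Y ^ 3 * Y = 4 * (Y ^ 2) ^ 2 := by ring
  have e2 : 4 * Y ^ 3 * X = 4 * X * Y * Y ^ 2 := by ring
  rw [e1, e2] at a4
  linarith

theorem case2X {X Y T V : ℤ} (hX : 0 < X) (hY : 0 < Y) (hT : 0 < T)
    (h1 : -2 * X ^ 2 + 1024 * Y ^ 2 ≤ T) (h1' : 2 * X ^ 2 - 1024 * Y ^ 2 ≤ T)
    (h2 : 4 * X * Y * V ≤ T ^ 2)
    (hV : V = -2 * X ^ 2 + 105 * X * Y - 1024 * Y ^ 2) : X ^ 2 ≤ 8 * T := by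
  by_contra h
  push Not at h
  have hX2 : 0 < X ^ 2 := by positivity
  have b1 : 8192 * Y ^ 2 < 17 * X ^ 2 := by linarith
  have b2 : 15 * X ^ 2 < 8192 * Y ^ 2 := by linarith
  have a2 : X < 24 * Y := by
    by_contra h'
    push Not at h'
    have := pow_le_pow_left₀ (by positivity) h' 2
    nlinarith
  have a6 : X * X < X * (24 * Y) := mul_lt_mul_of_pos_left a2 hX
  have hV1 : X ^ 2 ≤ 4 * V := by
    rw [hV]
    have : X * X = X ^ 2 := by ring
    nlinarith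
  have a3 : X * Y * X ^ 2 ≤ T ^ 2 := by
    have : X * Y * X ^ 2 ≤ X * Y * (4 * V) := mul_le_mul_of_nonneg_left hV1 (by positivity)
    linarith
  have a4 : X ^ 3 * X < X ^ 3 * (24 * Y) := mul_lt_mul_of_pos_left a2 (by positivity)
  have a5 : (8 * T) ^ 2 < (X ^ 2) ^ 2 := pow_lt_pow_left₀ h (by positivity) two_ne_zero
  have hT2 : 0 < T ^ 2 := by positivity
  have e1 : X ^ 3 * X = (X ^ 2) ^ 2 := by ring
  have e2 : X ^ 3 * (24 * Y) = 24 * (X * Y * X ^ 2) := by ring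
  rw [e1, e2] at a4
  linarith

theorem case2Y {X Y T V : ℤ} (hX : 0 < X) (hY : 0 < Y) (hT : 0 < T)
    (h1 : -2 * X ^ 2 + 1024 * Y ^ 2 ≤ T) (h1' : 2 * X ^ 2 - 1024 * Y ^ 2 ≤ T)
    (h2 : 4 * X * Y * V ≤ T ^ 2)
    (hV : V = -2 * X ^ 2 + 105 * X * Y - 1024 * Y ^ 2) : Y ^ 2 ≤ 8 * T := by
  by_contra h
  push Not at h
  have hY2 : 0 < Y ^ 2 := by positivity
  have b1 : 8191 * Y ^ 2 < 16 * X ^ 2 := by linarith
  have b2 : 16 * X ^ 2 < 8193 * Y ^ 2 := by linarith
  have a2 : 22 * Y < X := by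
    by_contra h'
    push Not at h'
    have := pow_le_pow_left₀ hX.le h' 2
    nlinarith
  have a6 : Y * (22 * Y) < Y * X := mul_lt_mul_of_pos_left a2 hY
  have hV1 : Y ^ 2 ≤ V := by
    rw [hV]
    nlinarith
  have a3 : 4 * X * Y * Y ^ 2 ≤ T ^ 2 := by
    have : 4 * X * Y * Y ^ 2 ≤ 4 * X * Y * V := mul_le_mul_of_nonneg_left hV1 (by positivity)
    linarith
  have a4 : 4 * Y ^ 3 * (22 * Y) < 4 * Y ^ 3 * X := mul_lt_mul_of_pos_left a2 (by positivity)
  have a5 : (8 * T) ^ 2 < (Y ^ 2) ^ 2 := pow_lt_pow_left₀ h (by positivity) two_ne_zero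
  have hT2 : 0 < T ^ 2 := by positivity
  have e1 : 4 * Y ^ 3 * (22 * Y) = 88 * (Y ^ 2) ^ 2 := by ring
  have e2 : 4 * Y ^ 3 * X = 4 * X * Y * Y ^ 2 := by ring
  rw [e1, e2] at a4
  linarith

/-- HALVEH -/
theorem halveh : Pool.Agent.H715.TW.S_HALVEH := by
  intro a d k k' A B v c M ha hd hk hA hB hv hcurve hc hc' hcd hca haM hdM
  set X := A ^ 2 with hX
  set Y := B ^ 2 with hY
  have hX0 : 0 < X := by positivity
  have hY0 : 0 < Y := by positivity
  have hM : 0 < M := lt_of_lt_of_le ha haM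
  have hT0 : 0 < c * M := by positivity
  have eA : A ^ 4 = X ^ 2 := by rw [hX]; ring
  have eB : B ^ 4 = Y ^ 2 := by rw [hY]; ring
  have hcaM : c * a ≤ c * M := mul_le_mul_of_nonneg_left haM hc.le
  have hcdM : c * d ≤ c * M := mul_le_mul_of_nonneg_left hdM hc.le
  have hca0 : 0 < c * a := by positivity
  have hcd0 : 0 < c * d := by positivity
  have h2 : 4 * X * Y * v ^ 2 ≤ (c * M) ^ 2 := by
    have e : 4 * X * Y * v ^ 2 = (c * d) ^ 2 := by rw [← hcd, hX, hY]; ring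
    rw [e]
    exact pow_le_pow_left₀ hcd0.le hcdM 2
  have hle : k * X ^ 2 - k' * Y ^ 2 ≤ c * M := by
    rw [← eA, ← eB]
    rcases hca with h | h <;> linarith
  have hge : -(k * X ^ 2 - k' * Y ^ 2) ≤ c * M := by
    rw [← eA, ← eB]
    rcases hca with h | h <;> linarith
  have hfin : 8 * (c * M) ≤ 8192 * M := by
    have : c * M ≤ 1024 * M := mul_le_mul_of_nonneg_right hc' hM.le
    linarith
  rw [eA, eB]
  rw [eA, eB] at hcurve
  rcases hk with ⟨hk1, hk2⟩ | ⟨hk1, hk2⟩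
  · subst hk1 hk2
    have hV : v ^ 2 = X ^ 2 + 105 * X * Y + 2048 * Y ^ 2 := by rw [hcurve]; ring
    refine ⟨(case1X hX0 hY0 hT0 (by linarith) h2 hV).trans hfin,
      (case1Y hX0 hY0 hT0 (by linarith) h2 hV).trans hfin⟩
  · subst hk1 hk2
    have hV : v ^ 2 = -2 * X ^ 2 + 105 * X * Y - 1024 * Y ^ 2 := by rw [hcurve]; ring
    refine ⟨(case2X hX0 hY0 hT0 (by linarith) (by linarith) h2 hV).trans hfin,
      (case2Y hX0 hY0 hT0 (by linarith) (by linarith) h2 hV).trans hfin⟩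

/-- TRANSH -/
theorem transh : Pool.Agent.H715.TW.S_TRANSH := by
  intro a d v p q r s M ha hd hcad hcurve hne hp hq hr hs hpq hrs haM hdM h1 h2
  set α := (a ^ 2 - 16 * d ^ 2) ^ 2 with hα
  set β := -64 * a ^ 4 + 3648 * a ^ 2 * d ^ 2 - 32768 * d ^ 4 with hβ
  set γ := 1024 * (a ^ 2 - 32 * d ^ 2) ^ 2 with hγ
  set N1 := q ^ 2 * s ^ 2 with hN1
  set N2 := p ^ 2 * s ^ 2 + r ^ 2 * q ^ 2 with hN2
  set N3 := p ^ 2 * r ^ 2 with hN3
  have h1' : N3 * α = γ * N1 := by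
    rw [hγ, hN1, h1]
    ring
  have hN10 : 0 < N1 := by positivity
  have hN20 : 0 < N2 := by positivity
  have hN30 : 0 < N3 := by positivity
  have hα0 : 0 < α := by
    have : a ^ 2 - 16 * d ^ 2 ≠ 0 := by
      intro h
      have : (a - 4 * d) * (a + 4 * d) = 0 := by linarith
      rcases mul_eq_zero.1 this with h | h
      · exact hne (by linarith)
      · linarith
    positivity
  obtain ⟨x, y, z, hxyz⟩ : ∃ x y z : ℤ, x * N1 + y * N2 + z * N3 = 1 := by
    apply bezout3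
    intro l hl l1 l2 l3
    have hll : Prime (l : ℤ) := Nat.prime_iff_prime_int.1 hl
    rw [hN1] at l1
    rcases hll.dvd_or_dvd l1 with l4 | l4
    · have l5 : (l : ℤ) ∣ q := hll.dvd_of_dvd_pow l4
      have l6 : (l : ℤ) ∣ p ^ 2 * s ^ 2 := by
        have : p ^ 2 * s ^ 2 = N2 - q * (q * r ^ 2) := by rw [hN2]; ring
        rw [this]; exact dvd_sub l2 (Dvd.dvd.mul_right l5 _)
      rcases hll.dvd_or_dvd l6 with l7 | l7
      · exact not_both hpq hl (hll.dvd_of_dvd_pow l7) l5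
      · have l8 : (l : ℤ) ∣ s := hll.dvd_of_dvd_pow l7
        rcases hll.dvd_or_dvd l3 with l9 | l9
        · exact not_both hpq hl (hll.dvd_of_dvd_pow l9) l5
        · exact not_both hrs hl (hll.dvd_of_dvd_pow l9) l8
    · have l5 : (l : ℤ) ∣ s := hll.dvd_of_dvd_pow l4
      have l6 : (l : ℤ) ∣ r ^ 2 * q ^ 2 := by
        have : r ^ 2 * q ^ 2 = N2 - s * (s * p ^ 2) := by rw [hN2]; ring
        rw [this]; exact dvd_sub l2 (Dvd.dvd.mul_right l5 _)
      rcases hll.dvd_or_dvd l6 with l7 | l7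
      · exact not_both hrs hl (hll.dvd_of_dvd_pow l7) l5
      · have l8 : (l : ℤ) ∣ q := hll.dvd_of_dvd_pow l7
        rcases hll.dvd_or_dvd l3 with l9 | l9
        · exact not_both hpq hl (hll.dvd_of_dvd_pow l9) l8
        · exact not_both hrs hl (hll.dvd_of_dvd_pow l9) l5
  set lam := x * α + y * β + z * γ with hlam
  have e1 : α = N1 * lam := by
    calc α = α * (x * N1 + y * N2 + z * N3) := by rw [hxyz, mul_one]
      _ = x * α * N1 + y * (N2 * α) + z * (N3 * α) := by ring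
      _ = N1 * lam := by rw [h1', h2, hlam]; ring
  have hlam0 : 0 < lam := by
    rw [e1] at hα0
    exact (mul_pos_iff_of_pos_left hN10).1 hα0
  have hlam1 : 1 ≤ lam := hlam0
  have e2 : β = N2 * lam := by
    have : N1 * β = N1 * (N2 * lam) := by
      calc N1 * β = N2 * α := by rw [h2]; ring
        _ = _ := by rw [e1]; ring
    exact mul_left_cancel₀ hN10.ne' this
  have e3 : γ = N3 * lam := by
    have : N1 * γ = N1 * (N3 * lam) := by
      calc N1 * γ = N3 * α := by rw [h1']; ring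
        _ = _ := by rw [e1]; ring
    exact mul_left_cancel₀ hN10.ne' this
  have hM : 0 < M := lt_of_lt_of_le ha haM
  have ha2 : 0 < a ^ 2 := by positivity
  have hd2 : 0 < d ^ 2 := by positivity
  set X := a ^ 2 with hX
  set E := d ^ 2 with hE
  have hXM : X ≤ M ^ 2 := pow_le_pow_left₀ ha.le haM 2
  have hpell : 2 * X ^ 2 + 1024 * E ^ 2 ≤ 105 * X * E := by
    have hv : 0 ≤ v ^ 2 := sq_nonneg v
    have e : v ^ 2 = -2 * X ^ 2 + 105 * X * E - 1024 * E ^ 2 := by rw [hcurve, hX, hE]; ring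
    linarith
  -- `12.9 E < X < 39.6 E`
  have hE2 : 0 < E ^ 2 := by positivity
  have hprod : (129 * E - 10 * X) * (396 * E - 10 * X) < 0 := by
    have e : (129 * E - 10 * X) * (396 * E - 10 * X) =
        50 * (2 * X ^ 2 + 1024 * E ^ 2 - 105 * X * E) - 116 * E ^ 2 := by ring
    rw [e]
    linarith
  have hlo : 129 * E < 10 * X := by
    by_contra h
    push Not at h
    have h3 : 0 ≤ 129 * E - 10 * X := by linarith
    have h4 : 0 ≤ 396 * E - 10 * X := by linarith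
    have := mul_nonneg h3 h4
    linarith
  have hhi : 10 * X < 396 * E := by
    by_contra h
    push Not at h
    have h3 : 0 ≤ 10 * X - 129 * E := by linarith
    have h4 : 0 ≤ 10 * X - 396 * E := by linarith
    have h5 := mul_nonneg h3 h4
    have e : (10 * X - 129 * E) * (10 * X - 396 * E) =
        (129 * E - 10 * X) * (396 * E - 10 * X) := by ring
    rw [e] at h5
    linarith
  have b1 : α ≤ X ^ 2 := by
    rw [hα]
    apply sq_le_sq'
    · linarith
    · linarith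
  have b2 : β ≤ 38 * X ^ 2 := by
    have : β = -64 * X ^ 2 + 3648 * X * E - 32768 * E ^ 2 := by rw [hβ, hX, hE]; ring
    rw [this]
    have e : 102 * (38 * X ^ 2 - (-64 * X ^ 2 + 3648 * X * E - 32768 * E ^ 2)) =
        (102 * X - 1824 * E) ^ 2 + 15360 * E ^ 2 := by ring
    have h3 : 0 ≤ (102 * X - 1824 * E) ^ 2 := sq_nonneg _
    linarith
  have b3 : γ ≤ 2304 * X ^ 2 := by
    have : (2 * (X - 32 * E)) ^ 2 ≤ (3 * X) ^ 2 := by
      apply sq_le_sq'
      · linarith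
      · linarith
    rw [hγ]
    linarith
  have hXX : X ^ 2 ≤ M ^ 4 := by
    have := pow_le_pow_left₀ ha2.le hXM 2
    have e : (M ^ 2) ^ 2 = M ^ 4 := by ring
    linarith
  have g1 : N1 ≤ 4096 * M ^ 4 := by
    have : N1 * 1 ≤ N1 * lam := mul_le_mul_of_nonneg_left hlam1 hN10.le
    have hM4 : 0 < M ^ 4 := by positivity
    linarith
  have g2 : N2 ≤ 4096 * M ^ 4 := by
    have : N2 * 1 ≤ N2 * lam := mul_le_mul_of_nonneg_left hlam1 hN20.le
    have hM4 : 0 < M ^ 4 := by positivity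
    linarith
  have g3 : N3 ≤ 4096 * M ^ 4 := by
    have : N3 * 1 ≤ N3 * lam := mul_le_mul_of_nonneg_left hlam1 hN30.le
    have hM4 : 0 < M ^ 4 := by positivity
    linarith
  have prod : ∀ u w : ℤ, 8 * M < u → 8 * M < w → 4096 * M ^ 4 < u ^ 2 * w ^ 2 := by
    intro u w hu hw
    have h3 : (8 * M) * (8 * M) < u * w := mul_lt_mul'' hu hw (by positivity) (by positivity)
    have h4 : ((8 * M) * (8 * M)) ^ 2 < (u * w) ^ 2 :=
      pow_lt_pow_left₀ h3 (by positivity) two_ne_zero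
    have e4 : ((8 * M) * (8 * M)) ^ 2 = 4096 * M ^ 4 := by ring
    have e5 : (u * w) ^ 2 = u ^ 2 * w ^ 2 := by ring
    rwa [e4, e5] at h4
  have hps : 0 < p ^ 2 * s ^ 2 := by positivity
  have hrq : 0 < r ^ 2 * q ^ 2 := by positivity
  by_contra hcon
  push Not at hcon
  obtain ⟨hc1, hc2⟩ := hcon
  by_cases hp' : p ≤ 8 * M
  · have hq' := hc1 hp'
    by_cases hr' : r ≤ 8 * M
    · have hs' := hc2 hr'
      have := prod _ _ hq' hs'
      linarith
    · push Not at hr'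
      have := prod _ _ hr' hq'
      linarith
  · push Not at hp'
    by_cases hr' : r ≤ 8 * M
    · have hs' := hc2 hr'
      have := prod _ _ hp' hs'
      linarith
    · push Not at hr'
      have := prod _ _ hp' hr'
      linarith

end Pool.Agent.H551.TW
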